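import Pool.Agent.H74.OLP.Targets2

/-!
# Rows CNG, CNF, SFF of olp_modules
-/

set_option autoImplicit false
open scoped Classical
open Finset Pool.Agent.H74.OLP

namespace Pool.Agent.H72.OLP

variable {V E F : Type}

/-- the other end -/
noncomputable def oth (M : CMap V E F) (u : V) (e : E) : V := if M.s e = u then M.t e else M.s e

theorem oth_spec (M : CMap V E F) (hst : ∀ e, M.s e ≠ M.t e) (u : V) (e : E)
    (h : M.OnV e u) : oth M u e ≠ u ∧ s(M.s e, M.t e) = s(u, oth M u e) := by
  unfold oth
  by_cases h1 : M.s e = u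
  · rw [if_pos h1]
    subst h1
    exact ⟨(hst e).symm, rfl⟩
  · rw [if_neg h1]
    rcases h with h | h
    · exact absurd h h1
    · subst h
      exact ⟨h1, Sym2.eq_swap⟩

theorem oth_W (M : CMap V E F) (W : V → R) (hW : ∀ e, W (M.s e) = W (M.t e)) (u : V) (e : E)
    (h : M.OnV e u) : W (oth M u e) = W u := by
  unfold oth
  by_cases h1 : M.s e = u
  · rw [if_pos h1, ← hW e, h1]
  · rw [if_neg h1]
    rcases h with h | h
    · exact absurd h h1
    · rw [hW e, h]

theorem three_le [Fintype V] [Fintype E] [Fintype F] (M : CMap V E F) (hM : M.OK) (hP : M.Par)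
    (W : V → R) (hW : ∀ e, W (M.s e) = W (M.t e)) (u : V) (X : Finset V)
    (hX : ∀ v, W v = W u → v ∈ X) : 3 ≤ X.card := by
  obtain ⟨a, b, c, x, y, z, hab, -, -, -, -, -, hv, -, -, -⟩ := hM.tri u
  have ha : M.OnV a u := (hv a).2 (Or.inl rfl)
  have hb : M.OnV b u := (hv b).2 (Or.inr (Or.inl rfl))
  obtain ⟨ha1, ha2⟩ := oth_spec M hM.st u a ha
  obtain ⟨hb1, hb2⟩ := oth_spec M hM.st u b hb
  have hne : oth M u a ≠ oth M u b := by
    intro h
    apply hab
    apply hP
    rw [ha2, hb2, h]
  have hsub : ({u, oth M u a, oth M u b} : Finset V) ⊆ X := by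
    intro v hv'
    simp only [mem_insert, mem_singleton] at hv'
    apply hX
    rcases hv' with rfl | rfl | rfl
    · rfl
    · exact oth_W M W hW u a ha
    · exact oth_W M W hW u b hb
  have hc : ({u, oth M u a, oth M u b} : Finset V).card = 3 := by
    rw [card_eq_three]
    exact ⟨u, _, _, ha1.symm, hb1.symm, hne, rfl⟩
  rw [← hc]
  exact card_le_card hsub

theorem pf_CNG : T_CNG := by
  intro V E F _ _ _ M hM hP h5 W hW u v
  by_contra hne
  have h1 := h5 (univ.filter fun x => W x = W u)
    (three_le M hM hP W hW u _ (fun x hx => by simpa using hx))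
    (three_le M hM hP W hW v _ (fun x hx => by
      rw [mem_compl, mem_filter]
      rintro ⟨-, h⟩
      exact hne (h.symm.trans hx)))
  have h2 : M.cut (univ.filter fun x => W x = W u) = ∅ := by
    rw [eq_empty_iff_forall_notMem]
    intro e he
    unfold CMap.cut at he
    simp only [mem_filter, mem_univ, true_and] at he
    rcases he with ⟨h3, h4⟩ | ⟨h3, h4⟩
    · exact h4 (by rw [← hW e]; exact h3)
    · exact h4 (by rw [hW e]; exact h3)
  rw [h2, card_empty] at h1
  omega

theorem pf_CNF : T_CNF := by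
  intro V E F _ _ _ M hM hcon
  have hfst : ∀ g : F → R, (∀ e, g (M.l e) = g (M.r e)) → ∀ f f', g f = g f' := by
    intro g hg
    have hpair : ∀ (e : E) (p q : F), (∀ f, M.OnF e f ↔ (f = p ∨ f = q)) → g p = g q := by
      intro e p q h
      have hl := (h (M.l e)).1 (Or.inl rfl)
      have hr := (h (M.r e)).1 (Or.inr rfl)
      have hne := hM.lr e
      have hge := hg e
      rcases hl with hl | hl <;> rcases hr with hr | hr
      · exact absurd (hl.trans hr.symm) hne
      · rw [← hl, ← hr]; exact hge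
      · rw [← hl, ← hr]; exact hge.symm
      · exact absurd (hl.trans hr.symm) hne
    have hloc : ∀ v, ∃ c : R, ∀ e f, M.OnV e v → M.OnF e f → g f = c := by
      intro v
      obtain ⟨a, b, c, x, y, z, -, -, -, -, -, -, hv, hfa, hfb, hfc⟩ := hM.tri v
      have h1 := hpair a y z hfa
      have h2 := hpair b z x hfb
      refine ⟨g x, fun e f he hf => ?_⟩
      rcases (hv e).1 he with rfl | rfl | rfl
      · rcases (hfa f).1 hf with rfl | rfl
        · rw [h1, h2]
        · rw [h2]
      · rcases (hfb f).1 hf with rfl | rfl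
        · rw [h2]
        · rfl
      · rcases (hfc f).1 hf with rfl | rfl
        · rfl
        · rw [h1, h2]
    choose W hW using hloc
    have hWe : ∀ e, W (M.s e) = W (M.t e) := fun e =>
      (hW (M.s e) e (M.l e) (Or.inl rfl) (Or.inl rfl)).symm.trans
        (hW (M.t e) e (M.l e) (Or.inr rfl) (Or.inl rfl))
    have hgf : ∀ f, g f = W (M.vt f 0) := by
      intro f
      refine hW _ (M.ed f 0) f ?_ ((hM.on _ _).2 ⟨0, rfl⟩)
      rcases hM.jn f 0 with h | h
      · exact Or.inl h.1
      · exact Or.inr h.1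
    intro f f'
    rw [hgf f, hgf f']
    exact hcon W hWe _ _
  refine ⟨hfst, fun x y => ?_⟩
  have h1 := hfst (fun z => if Nonempty (M.T.Walk x z) then 1 else 0) (fun e => by
    have hadj : M.T.Adj (M.l e) (M.r e) := ⟨hM.lr e, e, rfl⟩
    have hiff : Nonempty (M.T.Walk x (M.l e)) ↔ Nonempty (M.T.Walk x (M.r e)) :=
      ⟨fun ⟨p⟩ => ⟨p.concat hadj⟩, fun ⟨p⟩ => ⟨p.concat hadj.symm⟩⟩
    simp only [hiff]) x y
  by_contra hy
  have hx : Nonempty (M.T.Walk x x) := ⟨SimpleGraph.Walk.nil⟩
  simp only [if_pos hx, if_neg hy] at h1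
  exact one_ne_zero h1

theorem pf_SFF (h1 : T_CLS) (h2 : T_NBE) : T_SFF := by
  intro V E F _ _ _ M hM hP h5 w hw hR e e' hs
  by_contra hne
  have hon : M.OnF e' (M.l e) ∧ M.OnF e' (M.r e) := by
    rw [Sym2.eq_iff] at hs
    rcases hs with ⟨ha, hb⟩ | ⟨ha, hb⟩
    · exact ⟨Or.inl ha.symm, Or.inr hb.symm⟩
    · exact ⟨Or.inr ha.symm, Or.inl hb.symm⟩
  obtain ⟨W, hW⟩ := hR 2 le_rfl (by omega)
    (fun i => if i % 2 = 1 then M.r e else M.l e) (fun i => if i = 0 then e else e')
    (by
      intro i hi j hj h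
      have hi' : i = 0 ∨ i = 1 := by omega
      have hj' : j = 0 ∨ j = 1 := by omega
      rcases hi' with rfl | rfl <;> rcases hj' with rfl | rfl
      · rfl
      · exact absurd (by simpa using h) (hM.lr e)
      · exact absurd (by simpa using h.symm) (hM.lr e)
      · rfl)
    (by
      intro i hi j hj h
      have hi' : i = 0 ∨ i = 1 := by omega
      have hj' : j = 0 ∨ j = 1 := by omega
      rcases hi' with rfl | rfl <;> rcases hj' with rfl | rfl
      · rfl
      · exact absurd (by simpa using h) hne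
      · exact absurd (by simpa using h.symm) hne
      · rfl)
    (by simp)
    (by
      intro i hi
      have hi' : i = 0 ∨ i = 1 := by omega
      rcases hi' with rfl | rfl
      · simp only [if_true]
        exact ⟨Or.inl (by simp), Or.inr (by simp)⟩
      · simp only [one_ne_zero, if_false]
        refine ⟨?_, ?_⟩
        · simpa using hon.2
        · simpa using hon.1)
  have hcut : ∀ e'', e'' ∈ M.cut W ↔ (e'' = e ∨ e'' = e') := by
    intro e''
    rw [hW]
    constructor
    · rintro ⟨i, hi, h⟩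
      by_cases h0 : i = 0
      · rw [if_pos h0] at h; exact Or.inl h.symm
      · rw [if_neg h0] at h; exact Or.inr h.symm
    · rintro (h | h)
      · exact ⟨0, by omega, by simp [h]⟩
      · exact ⟨1, by omega, by simp [h]⟩
  have hcard : (M.cut W).card ≤ 4 := by
    have hsub : M.cut W ⊆ {e, e'} := by
      intro x hx
      rw [mem_insert, mem_singleton]
      exact (hcut x).1 hx
    have := card_le_card hsub
    have h3 : ({e, e'} : Finset E).card ≤ 2 := card_le_two
    omega
  rcases h1 V E F M hM hP h5 W hcard with h | ⟨v, hv⟩ | ⟨e₀, he₀⟩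
  · have : e ∈ M.cut W := (hcut e).2 (Or.inl rfl)
    rw [h] at this
    exact absurd this (notMem_empty _)
  · obtain ⟨a, b, c, x, y, z, hab, hbc, hac, -, -, -, hv', -, -, -⟩ := hM.tri v
    have hk : ∀ x, M.OnV x v → (x = e ∨ x = e') := fun x hx => (hcut x).1 ((hv x).2 hx)
    have ha := hk a ((hv' a).2 (Or.inl rfl))
    have hb := hk b ((hv' b).2 (Or.inr (Or.inl rfl)))
    have hc := hk c ((hv' c).2 (Or.inr (Or.inr rfl)))
    rcases ha with rfl | rfl <;> rcases hb with rfl | rfl <;> rcases hc with rfl | rfl <;>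
      first | exact hab rfl | exact hbc rfl | exact hac rfl
  · obtain ⟨a, b, c, d, p, q, hab, hac, had, hbc, hbd, hcd, hm, -⟩ := h2 V E F M hM hP e₀
    have hk : ∀ x, (x = a ∨ x = b ∨ x = c ∨ x = d) → (x = e ∨ x = e') := fun x hx =>
      (hcut x).1 ((he₀ x).2 ((hm x).2 hx))
    have ha := hk a (Or.inl rfl)
    have hb := hk b (Or.inr (Or.inl rfl))
    have hc := hk c (Or.inr (Or.inr (Or.inl rfl)))
    rcases ha with rfl | rfl <;> rcases hb with rfl | rfl <;> rcases hc with rfl | rfl <;>
      first | exact hab rfl | exact hbc rfl | exact hac rfl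

end Pool.Agent.H72.OLP
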